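import Pool.Agent.Y145.SHL.CurGen
import Pool.Agent.Y753.SHR.Stm3

/-!
# Project SHL of helper753: Curtiss' theorem, normal limit (`S_CURT`)
-/

set_option autoImplicit false

namespace Pool.Agent.Y145.SHL

open MeasureTheory Filter Topology ProbabilityTheory
open Pool.Agent.Y753.SHL

theorem gauss_exp (m : ℝ) {v : ℝ} (hv : 0 ≤ v) (s : ℝ) :
    ∫ x, Real.exp (s * x) ∂(gaussianReal m v.toNNReal) = Real.exp (s * m + s ^ 2 * v / 2) := by
  have h := congrFun (mgf_id_gaussianReal (μ := m) (v := v.toNNReal)) s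
  have h2 : mgf (fun x => x) (gaussianReal m v.toNNReal) s =
      ∫ x, Real.exp (s * x) ∂(gaussianReal m v.toNNReal) := rfl
  rw [← h2, show (fun x : ℝ => x) = id from rfl, h, Real.coe_toNNReal v hv]
  congr 1
  ring

theorem curt : S_CURT := by
  intro μ m v r hr h
  have hv : 0 ≤ v := by
    set u := r / 2 with hu
    have hu0 : 0 < u := by positivity
    have hur : |u| < r := by rw [abs_of_pos hu0]; linarith
    have hur' : |-u| < r := by rw [abs_neg]; exact hur
    have hlim := (((h u hur).2.const_mul (Real.exp (-(u * m)))).add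
      ((h (-u) hur').2.const_mul (Real.exp (u * m))))
    have hge : ∀ᶠ T in atTop, (2 : ℝ) ≤ Real.exp (-(u * m)) *
        ∫ x, Real.exp (u * x) ∂(μ T : Measure ℝ) + Real.exp (u * m) *
        ∫ x, Real.exp (-u * x) ∂(μ T : Measure ℝ) := by
      filter_upwards [(h u hur).1, (h (-u) hur').1] with T i1 i2
      rw [← integral_const_mul, ← integral_const_mul, ← integral_add (i1.const_mul _) (i2.const_mul _)]
      have h2 : (2 : ℝ) = ∫ _x : ℝ, (2 : ℝ) ∂(μ T : Measure ℝ) := by simp
      rw [h2]
      refine integral_mono (integrable_const _) ((i1.const_mul _).add (i2.const_mul _)) fun x => ?_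
      show (2 : ℝ) ≤ Real.exp (-(u * m)) * Real.exp (u * x) + Real.exp (u * m) * Real.exp (-u * x)
      rw [← Real.exp_add, ← Real.exp_add]
      have h3 := Real.one_le_cosh (u * (x - m))
      rw [Real.cosh_eq] at h3
      have e1 : -(u * m) + u * x = u * (x - m) := by ring
      have e2 : u * m + -u * x = -(u * (x - m)) := by ring
      rw [e1, e2]
      linarith
    have h4 := ge_of_tendsto hlim hge
    rw [← Real.exp_add, ← Real.exp_add] at h4
    have e1 : -(u * m) + (u * m + u ^ 2 * v / 2) = u ^ 2 * v / 2 := by ring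
    have e2 : u * m + (-u * m + (-u) ^ 2 * v / 2) = u ^ 2 * v / 2 := by ring
    rw [e1, e2] at h4
    have h5 : (1 : ℝ) ≤ Real.exp (u ^ 2 * v / 2) := by linarith
    have h6 : 0 ≤ u ^ 2 * v / 2 := by
      rwa [← Real.exp_zero, Real.exp_le_exp] at h5
    have h7 : 0 ≤ u ^ 2 * v := by linarith
    exact nonneg_of_mul_nonneg_right h7 (by positivity)
  refine ⟨hv, curtiss_loc hr (fun s hs => (h s hs).1) ?_ ?_⟩
  · intro s _
    exact integrable_exp_mul_gaussianReal s
  · intro s hs
    have := (h s hs).2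
    show Tendsto _ atTop (𝓝 (∫ x, Real.exp (s * x) ∂(gaussianReal m v.toNNReal)))
    rw [gauss_exp m hv]
    exact this

end Pool.Agent.Y145.SHL
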