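import Pool.Agent.Y145.SHL.Curt

/-!
# Project SHL of helper753: from a neighbourhood of zero to a simplex with corner zero (`S_LAND`)
-/

set_option autoImplicit false

namespace Pool.Agent.Y145.SHL

open MeasureTheory Filter Topology ProbabilityTheory
open Pool.Agent.Y753.SHL

/-! ### Vague convergence to a probability measure is weak convergence -/

/-- the cutoff function -/
noncomputable def chi {n : ℕ} (k : ℕ) (y : Fin n → ℝ) : ℝ := max 0 (min 1 (k + 1 - ‖y‖))

theorem chi_cont {n : ℕ} (k : ℕ) : Continuous (chi (n := n) k) := by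
  unfold chi; fun_prop

theorem chi_nonneg {n : ℕ} (k : ℕ) (y : Fin n → ℝ) : 0 ≤ chi k y := le_max_left _ _

theorem chi_le {n : ℕ} (k : ℕ) (y : Fin n → ℝ) : chi k y ≤ 1 := max_le zero_le_one (min_le_left _ _)

theorem chi_supp {n : ℕ} (k : ℕ) : HasCompactSupport (chi (n := n) k) := by
  apply HasCompactSupport.intro (isCompact_closedBall (0 : Fin n → ℝ) (k + 1))
  intro y hy
  rw [mem_closedBall_zero_iff, not_le] at hy
  unfold chi
  apply max_eq_left
  exact (min_le_right _ _).trans (by linarith)

theorem chi_lim {n : ℕ} (y : Fin n → ℝ) : Tendsto (fun k => chi k y) atTop (𝓝 1) := by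
  apply tendsto_const_nhds.congr'
  obtain ⟨K, hK⟩ := exists_nat_gt ‖y‖
  filter_upwards [eventually_ge_atTop K] with k hk
  have : (K : ℝ) ≤ k := by exact_mod_cast hk
  unfold chi
  rw [min_eq_left (by linarith), max_eq_right zero_le_one]

theorem vague {n : ℕ} {ι : Type*} {l : Filter ι} {μ : ι → ProbabilityMeasure (Fin n → ℝ)}
    {ρ : ProbabilityMeasure (Fin n → ℝ)}
    (h : ∀ G : (Fin n → ℝ) → ℝ, Continuous G → HasCompactSupport G →
      Tendsto (fun i => ∫ y, G y ∂(μ i : Measure (Fin n → ℝ))) l
        (𝓝 (∫ y, G y ∂(ρ : Measure (Fin n → ℝ))))) : Tendsto μ l (𝓝 ρ) := by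
  rw [ProbabilityMeasure.tendsto_iff_forall_integral_tendsto]
  intro F
  set M := ‖F‖ with hM
  have hM0 : 0 ≤ M := norm_nonneg _
  have hF : ∀ y, |F y| ≤ M := fun y => F.norm_coe_le_norm y
  have hchiI : ∀ (k : ℕ) (κ : ProbabilityMeasure (Fin n → ℝ)),
      Integrable (chi k) (κ : Measure (Fin n → ℝ)) := by
    intro k κ
    apply Integrable.of_bound (chi_cont k).aestronglyMeasurable 1
    refine Eventually.of_forall fun y => ?_
    rw [Real.norm_of_nonneg (chi_nonneg k y)]
    exact chi_le k y
  have hlim1 : Tendsto (fun k : ℕ => ∫ y, chi k y ∂(ρ : Measure (Fin n → ℝ))) atTop (𝓝 1) := by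
    have h1 : (1 : ℝ) = ∫ _y : Fin n → ℝ, (1 : ℝ) ∂(ρ : Measure (Fin n → ℝ)) := by simp
    rw [h1]
    apply tendsto_integral_of_dominated_convergence (fun _ => 1)
    · exact fun k => (chi_cont k).aestronglyMeasurable
    · exact integrable_const _
    · intro k
      refine Eventually.of_forall fun y => ?_
      rw [Real.norm_of_nonneg (chi_nonneg k y)]
      exact chi_le k y
    · exact Eventually.of_forall fun y => chi_lim y
  have hsplit : ∀ (k : ℕ) (κ : ProbabilityMeasure (Fin n → ℝ)),
      |∫ y, F y ∂(κ : Measure (Fin n → ℝ)) - ∫ y, F y * chi k y ∂(κ : Measure (Fin n → ℝ))| ≤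
        M * (1 - ∫ y, chi k y ∂(κ : Measure (Fin n → ℝ))) := by
    intro k κ
    have i1 : Integrable (fun y => F y) (κ : Measure (Fin n → ℝ)) := F.integrable _
    have i2 : Integrable (fun y => F y * chi k y) (κ : Measure (Fin n → ℝ)) := by
      apply Integrable.of_bound (F.continuous.mul (chi_cont k)).aestronglyMeasurable M
      refine Eventually.of_forall fun y => ?_
      rw [Real.norm_eq_abs]
      show |F y * chi k y| ≤ M
      rw [abs_mul, abs_of_nonneg (chi_nonneg k y)]
      calc |F y| * chi k y ≤ M * 1 := mul_le_mul (hF y) (chi_le k y) (chi_nonneg k y) hM0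
        _ = M := mul_one _
    rw [← integral_sub i1 i2]
    have h1 : (1 : ℝ) = ∫ _y : Fin n → ℝ, (1 : ℝ) ∂(κ : Measure (Fin n → ℝ)) := by simp
    rw [h1, ← integral_sub (integrable_const _) (hchiI k κ), ← integral_const_mul]
    refine (abs_integral_le_integral_abs).trans (integral_mono (i1.sub i2).abs
      (((integrable_const _).sub (hchiI k κ)).const_mul M) fun y => ?_)
    show |F y - F y * chi k y| ≤ M * (1 - chi k y)
    have h2 : F y - F y * chi k y = F y * (1 - chi k y) := by ring
    rw [h2, abs_mul, abs_of_nonneg (by linarith [chi_le k y] : (0 : ℝ) ≤ 1 - chi k y)]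
    exact mul_le_mul_of_nonneg_right (hF y) (by linarith [chi_le k y])
  rw [Metric.tendsto_nhds]
  intro ε hε
  set δ := ε / (4 * (M + 1)) with hδ
  have hδ0 : 0 < δ := by positivity
  obtain ⟨k, hk⟩ := ((Metric.tendsto_nhds.1 hlim1) δ hδ0).exists
  have e1 := (Metric.tendsto_nhds.1 (h (chi k) (chi_cont k) (chi_supp k))) δ hδ0
  have e2 := (Metric.tendsto_nhds.1 (h (fun y => F y * chi k y) (F.continuous.mul (chi_cont k))
    ((chi_supp k).mul_left))) (ε / 4) (by linarith)
  filter_upwards [e1, e2] with i h1 h2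
  rw [Real.dist_eq] at hk h1 h2 ⊢
  have s1 := hsplit k (μ i)
  have s2 := hsplit k ρ
  rw [abs_lt] at hk h1
  have hMd : M * δ ≤ ε / 4 := by
    rw [hδ, mul_div_assoc', div_le_div_iff₀ (by positivity) (by norm_num)]
    nlinarith
  have b1 : M * (1 - ∫ y, chi k y ∂(μ i : Measure (Fin n → ℝ))) ≤ M * (2 * δ) :=
    mul_le_mul_of_nonneg_left (by linarith [hk.1, h1.1]) hM0
  have b2 : M * (1 - ∫ y, chi k y ∂(ρ : Measure (Fin n → ℝ))) ≤ M * δ :=
    mul_le_mul_of_nonneg_left (by linarith [hk.1]) hM0
  have t1 := abs_le.1 s1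
  have t2 := abs_le.1 s2
  have t3 := abs_lt.1 h2
  rw [abs_lt]
  constructor <;> nlinarith

/-! ### Linear and quadratic forms -/

section forms

variable {n : ℕ}

theorem lf_cont (c : Fin n → ℝ) : Continuous (lf c) := by
  unfold lf; fun_prop

theorem lf_add (c d y : Fin n → ℝ) : lf (c + d) y = lf c y + lf d y := by
  unfold lf
  rw [← Finset.sum_add_distrib]
  exact Finset.sum_congr rfl fun j _ => by simp only [Pi.add_apply]; ring

theorem lf_smul (s : ℝ) (c y : Fin n → ℝ) : lf (s • c) y = s * lf c y := by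
  unfold lf
  rw [Finset.mul_sum]
  exact Finset.sum_congr rfl fun j _ => by simp only [Pi.smul_apply, smul_eq_mul]; ring

theorem lf_neg (c y : Fin n → ℝ) : lf (-c) y = -lf c y := by
  have := lf_smul (-1) c y
  rw [neg_one_smul] at this
  linarith

/-- the bilinear form -/
noncomputable def bl (C : Fin n → Fin n → ℝ) (c d : Fin n → ℝ) : ℝ := ∑ i, ∑ j, c i * d j * C i j

theorem qf_add {C : Fin n → Fin n → ℝ} (hC : ∀ i j, C i j = C j i) (c d : Fin n → ℝ) :
    qf C (c + d) = qf C c + 2 * bl C c d + qf C d := by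
  have h1 : bl C c d = ∑ i, ∑ j, d i * c j * C i j := by
    unfold bl
    rw [Finset.sum_comm]
    exact Finset.sum_congr rfl fun j _ => Finset.sum_congr rfl fun i _ => by rw [hC i j]; ring
  have h2 : 2 * bl C c d = bl C c d + ∑ i, ∑ j, d i * c j * C i j := by rw [← h1]; ring
  rw [h2]
  unfold qf bl
  rw [← Finset.sum_add_distrib, ← Finset.sum_add_distrib, ← Finset.sum_add_distrib]
  refine Finset.sum_congr rfl fun i _ => ?_
  rw [← Finset.sum_add_distrib, ← Finset.sum_add_distrib, ← Finset.sum_add_distrib]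
  refine Finset.sum_congr rfl fun j _ => ?_
  simp only [Pi.add_apply]
  ring

theorem qf_smul (C : Fin n → Fin n → ℝ) (s : ℝ) (c : Fin n → ℝ) :
    qf C (s • c) = s ^ 2 * qf C c := by
  unfold qf
  rw [Finset.mul_sum]
  refine Finset.sum_congr rfl fun i _ => ?_
  rw [Finset.mul_sum]
  refine Finset.sum_congr rfl fun j _ => ?_
  simp only [Pi.smul_apply, smul_eq_mul]
  ring

theorem bl_smul (C : Fin n → Fin n → ℝ) (s t : ℝ) (c d : Fin n → ℝ) :
    bl C (s • c) (t • d) = s * t * bl C c d := by
  unfold bl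
  rw [Finset.mul_sum]
  refine Finset.sum_congr rfl fun i _ => ?_
  rw [Finset.mul_sum]
  refine Finset.sum_congr rfl fun j _ => ?_
  simp only [Pi.smul_apply, smul_eq_mul]
  ring

theorem bl_self (C : Fin n → Fin n → ℝ) (c : Fin n → ℝ) : bl C c c = qf C c := rfl

theorem lf_shift (C : Fin n → Fin n → ℝ) (c m t : Fin n → ℝ) :
    lf c (fun i => m i + ∑ j, C i j * t j) = lf c m + bl C c t := by
  unfold lf bl
  rw [← Finset.sum_add_distrib]
  refine Finset.sum_congr rfl fun i _ => ?_
  rw [mul_add, Finset.mul_sum]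
  congr 1
  exact Finset.sum_congr rfl fun j _ => by ring

theorem nor_exp {m : Fin n → ℝ} {C : Fin n → Fin n → ℝ} {ρ : ProbabilityMeasure (Fin n → ℝ)}
    (h : Nor m C ρ) (c : Fin n → ℝ) :
    Integrable (fun y => Real.exp (lf c y)) (ρ : Measure (Fin n → ℝ)) ∧
    ∫ y, Real.exp (lf c y) ∂(ρ : Measure (Fin n → ℝ)) = Real.exp (lf c m + qf C c / 2) := by
  obtain ⟨h1, h2⟩ := h c
  have hm : AEMeasurable (lf c) (ρ : Measure (Fin n → ℝ)) := (lf_cont c).measurable.aemeasurable
  constructor
  · have h3 : Integrable (fun x : ℝ => Real.exp (1 * x)) ((ρ : Measure (Fin n → ℝ)).map (lf c)) := by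
      rw [h2]; exact integrable_exp_mul_gaussianReal 1
    have h4 := (integrable_map_measure (by fun_prop) hm).1 h3
    simpa [Function.comp_def] using h4
  · have h3 : ∫ x, Real.exp (1 * x) ∂((ρ : Measure (Fin n → ℝ)).map (lf c)) =
        ∫ y, Real.exp (1 * lf c y) ∂(ρ : Measure (Fin n → ℝ)) :=
      integral_map hm (by fun_prop)
    rw [h2, gauss_exp _ h1] at h3
    simp only [one_mul] at h3
    rw [← h3]
    congr 1
    ring

end forms

/-- a probability measure -/
noncomputable def mkp {n : ℕ} (ν : Measure (Fin n → ℝ)) (h : IsProbabilityMeasure ν) :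
    ProbabilityMeasure (Fin n → ℝ) := ⟨ν, h⟩

theorem mkp_coe {n : ℕ} (ν : Measure (Fin n → ℝ)) (h : IsProbabilityMeasure ν) :
    (mkp ν h : Measure (Fin n → ℝ)) = ν := rfl

/-- the tilted measure -/
noncomputable def til {n : ℕ} (μ : ProbabilityMeasure (Fin n → ℝ)) (f : (Fin n → ℝ) → ℝ) :
    ProbabilityMeasure (Fin n → ℝ) := by
  classical
  exact if h : Integrable (fun y => Real.exp (f y)) (μ : Measure (Fin n → ℝ)) then
    mkp ((μ : Measure (Fin n → ℝ)).tilted f) (isProbabilityMeasure_tilted h) else μ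

theorem til_eq {n : ℕ} {μ : ProbabilityMeasure (Fin n → ℝ)} {f : (Fin n → ℝ) → ℝ}
    (h : Integrable (fun y => Real.exp (f y)) (μ : Measure (Fin n → ℝ))) :
    (til μ f : Measure (Fin n → ℝ)) = (μ : Measure (Fin n → ℝ)).tilted f := by
  unfold til
  rw [dif_pos h]
  exact mkp_coe _ _

theorem land : S_BALL → S_LAND := by
  intro hball n μ m C b hb hC hL
  set r : ℝ := b / (2 * (n + 1)) with hr
  have hr0 : 0 < r := by positivity
  set t : Fin n → ℝ := fun _ => r with ht
  have hth : ∀ ξ : Fin n → ℝ, (∀ j, |ξ j| < r) → Lap μ m C (t + ξ) := by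
    intro ξ hξ
    apply hL
    · intro j
      have := (abs_lt.1 (hξ j)).1
      simp only [Pi.add_apply, ht]
      linarith
    · have h1 : ∑ j, (t + ξ) j ≤ ∑ _j : Fin n, (2 * r) := by
        apply Finset.sum_le_sum
        intro j _
        have := (abs_lt.1 (hξ j)).2
        simp only [Pi.add_apply, ht]
        linarith
      rw [Finset.sum_const, Finset.card_univ, Fintype.card_fin, nsmul_eq_mul] at h1
      refine lt_of_le_of_lt h1 ?_
      rw [hr]
      have hn : (0 : ℝ) ≤ n := Nat.cast_nonneg n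
      have h2 : (n : ℝ) * (2 * (b / (2 * (n + 1)))) = b * (n / (n + 1)) := by field_simp
      rw [h2]
      have h3 : (n : ℝ) / (n + 1) < 1 := by rw [div_lt_one (by positivity)]; linarith
      nlinarith
  have hL0 : Lap μ m C t := by
    have := hth 0 (fun j => by simpa using hr0)
    rwa [add_zero] at this
  set q : ℝ := Real.exp (lf t m + qf C t / 2) with hq
  have hq0 : 0 < q := Real.exp_pos _
  -- the tilted measures
  set μ' : ℝ → ProbabilityMeasure (Fin n → ℝ) := fun T => til (μ T) (lf t) with hμ'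
  set m' : Fin n → ℝ := fun i => m i + ∑ j, C i j * t j with hm'
  have hLap' : ∀ ξ : Fin n → ℝ, (∀ j, |ξ j| < r) → Lap μ' m' C ξ := by
    intro ξ hξ
    obtain ⟨i1, l1⟩ := hth ξ hξ
    obtain ⟨i0, l0⟩ := hL0
    constructor
    · filter_upwards [i1, i0] with T a1 a0
      simp only [hμ']
      rw [til_eq a0, integrable_tilted_iff a0]
      refine a1.congr (Eventually.of_forall fun y => ?_)
      show Real.exp (lf (t + ξ) y) = Real.exp (lf t y) • Real.exp (lf ξ y)
      rw [smul_eq_mul, ← Real.exp_add, lf_add]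
    · have h1 := l1.div l0 hq0.ne'
      have e1 : Real.exp (lf (t + ξ) m + qf C (t + ξ) / 2) / q =
          Real.exp (lf ξ m' + qf C ξ / 2) := by
        rw [hq, ← Real.exp_sub]
        congr 1
        rw [hm', lf_shift, lf_add, qf_add hC]
        have : bl C t ξ = bl C ξ t := by
          unfold bl
          rw [Finset.sum_comm]
          exact Finset.sum_congr rfl fun j _ => Finset.sum_congr rfl fun i _ => by rw [hC i j]; ring
        rw [this]
        ring
      rw [e1] at h1
      refine h1.congr' ?_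
      filter_upwards [i0] with T a0
      simp only [hμ']
      rw [til_eq a0, integral_exp_tilted]
      simp only [Pi.div_apply, Pi.add_apply, lf_add]
  obtain ⟨ρ', hN', hc'⟩ := hball n μ' m' C r hr0 hC hLap'
  -- the limit
  have hint : Integrable (fun y => Real.exp (lf (-t) y)) (ρ' : Measure (Fin n → ℝ)) :=
    (nor_exp hN' (-t)).1
  have hZ : ∫ y, Real.exp (lf (-t) y) ∂(ρ' : Measure (Fin n → ℝ)) = q⁻¹ := by
    rw [(nor_exp hN' (-t)).2, hq, ← Real.exp_neg]
    congr 1
    have e1 : bl C (-t) t = -qf C t := by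
      have := bl_smul C (-1) 1 t t
      rw [neg_one_smul, one_smul, bl_self] at this
      rw [this]; ring
    have e2 : qf C (-t) = qf C t := by
      have := qf_smul C (-1) t
      rw [neg_one_smul] at this
      rw [this]; ring
    rw [hm', lf_shift, lf_neg, e1, e2]
    ring
  set ρ : ProbabilityMeasure (Fin n → ℝ) := til ρ' (lf (-t)) with hρ
  have hρe : (ρ : Measure (Fin n → ℝ)) = (ρ' : Measure (Fin n → ℝ)).tilted (lf (-t)) := til_eq hint
  have hρexp : ∀ c : Fin n → ℝ, Integrable (fun y => Real.exp (lf c y)) (ρ : Measure (Fin n → ℝ)) ∧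
      ∫ y, Real.exp (lf c y) ∂(ρ : Measure (Fin n → ℝ)) = Real.exp (lf c m + qf C c / 2) := by
    intro c
    obtain ⟨j1, j2⟩ := nor_exp hN' (-t + c)
    constructor
    · rw [hρe, integrable_tilted_iff hint]
      refine j1.congr (Eventually.of_forall fun y => ?_)
      show Real.exp (lf (-t + c) y) = Real.exp (lf (-t) y) • Real.exp (lf c y)
      rw [smul_eq_mul, ← Real.exp_add, lf_add]
    · rw [hρe, integral_exp_tilted, hZ]
      have e0 : (fun y => Real.exp ((lf (-t) + lf c) y)) = fun y => Real.exp (lf (-t + c) y) := by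
        funext y
        rw [Pi.add_apply, lf_add]
      rw [e0, j2, div_inv_eq_mul, hq, ← Real.exp_add]
      congr 1
      have e1 : bl C (-t + c) t = -qf C t + bl C c t := by
        have h1 : bl C (-t + c) t = bl C (-t) t + bl C c t := by
          unfold bl
          rw [← Finset.sum_add_distrib]
          refine Finset.sum_congr rfl fun i _ => ?_
          rw [← Finset.sum_add_distrib]
          refine Finset.sum_congr rfl fun j _ => ?_
          simp only [Pi.add_apply]
          ring
        have h2 := bl_smul C (-1) 1 t t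
        rw [neg_one_smul, one_smul, bl_self] at h2
        rw [h1, h2]; ring
      have e2 : qf C (-t + c) = qf C t - 2 * bl C c t + qf C c := by
        rw [qf_add hC]
        have h1 := qf_smul C (-1) t
        rw [neg_one_smul] at h1
        have h2 := bl_smul C (-1) 1 t c
        rw [neg_one_smul, one_smul] at h2
        have h3 : bl C t c = bl C c t := by
          unfold bl
          rw [Finset.sum_comm]
          exact Finset.sum_congr rfl fun j _ => Finset.sum_congr rfl fun i _ => by rw [hC i j]; ring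
        rw [h1, h2, h3]; ring
      rw [hm', lf_shift, lf_add, lf_neg, e1, e2]
      ring
  refine ⟨ρ, ?_, ?_⟩
  · intro c
    have hc0 : 0 ≤ qf C c := (hN' c).1
    refine ⟨hc0, ?_⟩
    have hm : AEMeasurable (lf c) (ρ : Measure (Fin n → ℝ)) := (lf_cont c).measurable.aemeasurable
    have hpm : IsProbabilityMeasure ((ρ : Measure (Fin n → ℝ)).map (lf c)) :=
      Measure.isProbabilityMeasure_map hm
    have hsm : ∀ s : ℝ, (fun y => Real.exp (s * lf c y)) = fun y => Real.exp (lf (s • c) y) := by
      intro s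
      funext y
      rw [lf_smul]
    apply ext_near one_pos
    · intro s _
      rw [integrable_map_measure (by fun_prop) hm]
      show Integrable (fun y => Real.exp (s * lf c y)) (ρ : Measure (Fin n → ℝ))
      rw [hsm]
      exact (hρexp (s • c)).1
    · intro s _
      exact integrable_exp_mul_gaussianReal s
    · intro s _
      rw [gauss_exp _ hc0, integral_map hm (by fun_prop), hsm, (hρexp (s • c)).2, lf_smul, qf_smul]
  · apply vague
    intro G hG hGc
    obtain ⟨i0, l0⟩ := hL0
    have hGE : Continuous (fun y => G y * Real.exp (lf (-t) y)) :=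
      hG.mul (Real.continuous_exp.comp (lf_cont (-t)))
    have hGEc : HasCompactSupport (fun y => G y * Real.exp (lf (-t) y)) := hGc.mul_right
    obtain ⟨B, hB⟩ := hGE.bounded_above_of_compact_support hGEc
    let F : BoundedContinuousFunction (Fin n → ℝ) ℝ :=
      BoundedContinuousFunction.ofNormedAddCommGroup (fun y => G y * Real.exp (lf (-t) y)) hGE B hB
    have hF := (ProbabilityMeasure.tendsto_iff_forall_integral_tendsto.1 hc') F
    have h1 := l0.mul hF
    have hlimeq : q * ∫ y, F y ∂(ρ' : Measure (Fin n → ℝ)) =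
        ∫ y, G y ∂(ρ : Measure (Fin n → ℝ)) := by
      rw [hρe, integral_tilted, hZ, ← integral_const_mul]
      refine integral_congr_ae (Eventually.of_forall fun y => ?_)
      show q * (G y * Real.exp (lf (-t) y)) = (Real.exp (lf (-t) y) / q⁻¹) • G y
      rw [smul_eq_mul, div_inv_eq_mul]
      ring
    rw [hlimeq] at h1
    refine h1.congr' ?_
    filter_upwards [i0] with T a0
    have hpos : 0 < ∫ y, Real.exp (lf t y) ∂(μ T : Measure (Fin n → ℝ)) := integral_exp_pos a0
    simp only [hμ']
    rw [til_eq a0, integral_tilted, ← integral_const_mul]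
    refine integral_congr_ae (Eventually.of_forall fun y => ?_)
    show (∫ y, Real.exp (lf t y) ∂(μ T : Measure (Fin n → ℝ))) *
      ((Real.exp (lf t y) / ∫ y, Real.exp (lf t y) ∂(μ T : Measure (Fin n → ℝ))) •
        (G y * Real.exp (lf (-t) y))) = G y
    have hee : Real.exp (lf t y) * Real.exp (lf (-t) y) = 1 := by
      rw [← Real.exp_add, lf_neg, add_neg_cancel, Real.exp_zero]
    rw [smul_eq_mul]
    have h5 : (∫ y, Real.exp (lf t y) ∂(μ T : Measure (Fin n → ℝ))) *
        (Real.exp (lf t y) / (∫ y, Real.exp (lf t y) ∂(μ T : Measure (Fin n → ℝ))) *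
        (G y * Real.exp (lf (-t) y))) = G y * (Real.exp (lf t y) * Real.exp (lf (-t) y)) := by
      field_simp
    rw [h5, hee, mul_one]

end Pool.Agent.Y145.SHL
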