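import Pool.Agent.Y753.NL.Cur

/-!
# The theorem of Curtiss for moment generating functions in a neighbourhood of zero
-/

set_option autoImplicit false

namespace Pool.Agent.Y145.SHL

open MeasureTheory Filter Topology ProbabilityTheory BoundedContinuousFunction
open Pool.Agent.Y753.NL (te te_apply te_near te_lim)

lemma tight_exp' (s C : ℝ) (hs : 0 < s) :
    IsTightMeasureSet {((μ : ProbabilityMeasure ℝ) : Measure ℝ) | μ ∈
    {μ : ProbabilityMeasure ℝ | Integrable (fun x => Real.exp (s * x)) (μ : Measure ℝ) ∧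
      Integrable (fun x => Real.exp ((-s) * x)) (μ : Measure ℝ) ∧
      ∫ x, Real.exp (s * x) ∂(μ : Measure ℝ) ≤ C ∧
      ∫ x, Real.exp ((-s) * x) ∂(μ : Measure ℝ) ≤ C}} := by
  rw [isTightMeasureSet_iff_exists_isCompact_measure_compl_le]
  intro ε hε
  obtain ⟨r, hr⟩ : ∃ r : ℝ, ENNReal.ofReal (2 * C * Real.exp (-r)) ≤ ε := by
    have h1 : Tendsto (fun r : ℝ => ENNReal.ofReal (2 * C * Real.exp (-r))) atTop
        (𝓝 (ENNReal.ofReal (2 * C * 0))) :=
      ENNReal.tendsto_ofReal (Real.tendsto_exp_neg_atTop_nhds_zero.const_mul _)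
    rw [mul_zero, ENNReal.ofReal_zero] at h1
    exact ((h1.eventually (gt_mem_nhds hε)).exists).imp fun r hr => hr.le
  refine ⟨Metric.closedBall 0 (r / s), isCompact_closedBall 0 (r / s), ?_⟩
  rintro _ ⟨μ, ⟨h1, h2, h3, h4⟩, rfl⟩
  refine le_trans ?_ hr
  have h5 : (μ : Measure ℝ).real (Metric.closedBall 0 (r / s))ᶜ ≤ 2 * C * Real.exp (-r) := by
    have hm : MeasurableSet (Metric.closedBall (0:ℝ) (r / s))ᶜ :=
      Metric.isClosed_closedBall.measurableSet.compl
    rw [← integral_indicator_one hm]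
    have h6 : ∫ x, (Metric.closedBall (0:ℝ) (r / s))ᶜ.indicator 1 x ∂(μ : Measure ℝ) ≤
        ∫ x, (Real.exp (s * x) + Real.exp ((-s) * x)) * Real.exp (-r) ∂(μ : Measure ℝ) := by
      refine integral_mono ?_ ((h1.add h2).mul_const _) fun x => ?_
      · exact (integrable_const (1:ℝ)).indicator hm
      · by_cases hx : x ∈ (Metric.closedBall (0:ℝ) (r / s))ᶜ
        · rw [Set.indicator_of_mem hx]
          rw [Set.mem_compl_iff, Metric.mem_closedBall, Real.dist_eq, sub_zero, not_le,
            div_lt_iff₀ hs] at hx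
          show (1:ℝ) ≤ (Real.exp (s * x) + Real.exp ((-s) * x)) * Real.exp (-r)
          rcases le_or_gt 0 x with h0 | h0
          · rw [abs_of_nonneg h0] at hx
            have : 1 ≤ Real.exp (s * x) * Real.exp (-r) := by
              rw [← Real.exp_add]; exact Real.one_le_exp (by linarith)
            nlinarith [mul_pos (Real.exp_pos ((-s) * x)) (Real.exp_pos (-r))]
          · rw [abs_of_neg h0] at hx
            have : 1 ≤ Real.exp ((-s) * x) * Real.exp (-r) := by
              rw [← Real.exp_add]; exact Real.one_le_exp (by linarith)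
            nlinarith [mul_pos (Real.exp_pos (s * x)) (Real.exp_pos (-r))]
        · rw [Set.indicator_of_notMem hx]
          positivity
    refine h6.trans ?_
    rw [integral_mul_const, integral_add h1 h2]
    exact mul_le_mul_of_nonneg_right (by linarith) (Real.exp_pos _).le
  rw [measureReal_def] at h5
  exact ENNReal.le_ofReal_iff_toReal_le (measure_ne_top _ _) (le_trans ENNReal.toReal_nonneg h5) |>.mpr h5

/-- two probability measures whose moment generating functions are finite and agree near zero are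
equal -/
theorem ext_near {ρ ν : Measure ℝ} [IsProbabilityMeasure ρ] [IsProbabilityMeasure ν] {r : ℝ}
    (hr : 0 < r) (h1 : ∀ s : ℝ, |s| < r → Integrable (fun x => Real.exp (s * x)) ρ)
    (h2 : ∀ s : ℝ, |s| < r → Integrable (fun x => Real.exp (s * x)) ν)
    (h : ∀ s : ℝ, |s| < r → ∫ x, Real.exp (s * x) ∂ρ = ∫ x, Real.exp (s * x) ∂ν) : ρ = ν := by
  set U : Set ℂ := {z : ℂ | |z.re| < r} with hU
  have hint : ∀ (κ : Measure ℝ), (∀ s : ℝ, |s| < r → Integrable (fun x => Real.exp (s * x)) κ) →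
      U ⊆ {z : ℂ | z.re ∈ interior (integrableExpSet id κ)} := by
    intro κ hκ z hz
    have hz' : |z.re| < r := hz
    show z.re ∈ interior (integrableExpSet id κ)
    rw [mem_interior]
    refine ⟨Set.Ioo (-r) r, ?_, isOpen_Ioo, abs_lt.1 hz'⟩
    intro s hs
    exact hκ s (abs_lt.2 hs)
  have hUp : IsPreconnected U := by
    have : Convex ℝ U := by
      have h3 : U = Complex.reLm ⁻¹' (Set.Ioo (-r) r) := by
        ext z
        simp [hU, abs_lt]
      rw [h3]
      exact (convex_Ioo (-r) r).linear_preimage _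
    exact this.isPreconnected
  have a1 : AnalyticOnNhd ℂ (complexMGF id ρ) U := analyticOnNhd_complexMGF.mono (hint ρ h1)
  have a2 : AnalyticOnNhd ℂ (complexMGF id ν) U := analyticOnNhd_complexMGF.mono (hint ν h2)
  have h0 : (0 : ℂ) ∈ U := by
    show |(0 : ℂ).re| < r
    simpa using hr
  have hEq : Set.EqOn (complexMGF id ρ) (complexMGF id ν) U := by
    apply a1.eqOn_of_preconnected_of_frequently_eq a2 hUp h0
    have h4 : Tendsto (fun x : ℝ => (x : ℂ)) (𝓝[≠] (0 : ℝ)) (𝓝[≠] (0 : ℂ)) := by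
      apply tendsto_nhdsWithin_of_tendsto_nhds_of_eventually_within
      · have : Tendsto (fun x : ℝ => (x : ℂ)) (𝓝 0) (𝓝 ((0 : ℝ) : ℂ)) :=
          Complex.continuous_ofReal.tendsto 0
        rw [Complex.ofReal_zero] at this
        exact this.mono_left nhdsWithin_le_nhds
      · filter_upwards [self_mem_nhdsWithin] with x hx
        simpa using hx
    apply h4.frequently
    apply Eventually.frequently
    have h5 : ∀ᶠ x : ℝ in 𝓝[≠] (0 : ℝ), |x| < r := by
      apply nhdsWithin_le_nhds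
      have : Metric.ball (0 : ℝ) r ∈ 𝓝 (0 : ℝ) := Metric.ball_mem_nhds 0 hr
      filter_upwards [this] with x hx
      simpa [Real.dist_eq] using hx
    filter_upwards [h5] with x hx
    rw [complexMGF_ofReal, complexMGF_ofReal]
    have := h x hx
    simp only [mgf, id]
    rw [this]
  apply Measure.ext_of_charFun
  funext t
  rw [← complexMGF_id_mul_I, ← complexMGF_id_mul_I]
  apply hEq
  show |((t : ℂ) * Complex.I).re| < r
  simpa using hr

/-- the theorem of Curtiss, local form -/
theorem curtiss_loc {ι : Type*} {l : Filter ι} {μ : ι → ProbabilityMeasure ℝ}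
    {ν : ProbabilityMeasure ℝ} {r : ℝ} (hr : 0 < r)
    (hi : ∀ s : ℝ, |s| < r → ∀ᶠ i in l, Integrable (fun x => Real.exp (s * x)) (μ i : Measure ℝ))
    (hν : ∀ s : ℝ, |s| < r → Integrable (fun x => Real.exp (s * x)) (ν : Measure ℝ))
    (h : ∀ s : ℝ, |s| < r → Tendsto (fun i => ∫ x, Real.exp (s * x) ∂(μ i : Measure ℝ)) l
      (𝓝 (∫ x, Real.exp (s * x) ∂(ν : Measure ℝ)))) :
    Tendsto μ l (𝓝 ν) := by
  rw [tendsto_iff_ultrafilter]
  intro g hg
  obtain ⟨m, hm⟩ : ∃ m : ℝ → ℝ, ∀ s, m s = ∫ x, Real.exp (s * x) ∂(ν : Measure ℝ) := ⟨_, fun _ => rfl⟩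
  simp_rw [← hm] at h
  have hb : ∀ s : ℝ, |s| < r → ∀ᶠ i in (g : Filter ι),
      ∫ x, Real.exp (s * x) ∂(μ i : Measure ℝ) ≤ m s + 1 := fun s hs =>
    hg ((h s hs).eventually (ge_mem_nhds (by linarith)))
  have hr4 : 0 < r / 4 := by linarith
  have hs1 : |r / 4| < r := by rw [abs_of_pos hr4]; linarith
  have hs2 : |-(r / 4)| < r := by rw [abs_neg]; exact hs1
  set C := max (m (r / 4) + 1) (m (-(r / 4)) + 1) with hC
  set S : Set (ProbabilityMeasure ℝ) := {μ : ProbabilityMeasure ℝ |
      Integrable (fun x => Real.exp ((r / 4) * x)) (μ : Measure ℝ) ∧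
      Integrable (fun x => Real.exp ((-(r / 4)) * x)) (μ : Measure ℝ) ∧
      ∫ x, Real.exp ((r / 4) * x) ∂(μ : Measure ℝ) ≤ C ∧
      ∫ x, Real.exp ((-(r / 4)) * x) ∂(μ : Measure ℝ) ≤ C} with hS
  have hcomp : IsCompact (closure S) :=
    isCompact_closure_of_isTightMeasureSet (tight_exp' (r / 4) C hr4)
  have hmem : ∀ᶠ i in (g : Filter ι), μ i ∈ S := by
    filter_upwards [hg (hi _ hs1), hg (hi _ hs2), hb _ hs1, hb _ hs2] with i a1 a2 a3 a4
    exact ⟨a1, a2, a3.trans (le_max_left _ _), a4.trans (le_max_right _ _)⟩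
  obtain ⟨ρ, -, hρ⟩ := isCompact_iff_ultrafilter_le_nhds.mp hcomp (g.map μ) (by
    rw [Ultrafilter.coe_map, le_principal_iff, mem_map]
    filter_upwards [hmem] with i hi
    exact subset_closure hi)
  have hT : Tendsto μ g (𝓝 ρ) := hρ
  have hF := ProbabilityMeasure.tendsto_iff_forall_integral_tendsto.mp hT
  have key : ∀ s R : ℝ, |s| < r / 2 → ∀ hR : 0 < R,
      |∫ x, te s R hR.le x ∂(ρ : Measure ℝ) - m s| ≤ (m (2 * s) + 1) / R := by
    intro s R hs hR
    have hs' : |s| < r := by linarith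
    have h2s : |2 * s| < r := by rw [abs_mul, abs_two]; linarith
    have h1 := (hF (te s R hR.le)).sub ((h s hs').mono_left hg)
    refine le_of_tendsto h1.abs ?_
    filter_upwards [hg (hi s hs'), hg (hi (2 * s) h2s), hb (2 * s) h2s] with i a1 a2 a3
    refine (te_near hR a1 a2).trans ?_
    exact div_le_div_of_nonneg_right a3 hR.le
  have hm0 : ∀ s, 0 ≤ m s := fun s => by rw [hm]; exact integral_nonneg fun x => (Real.exp_pos _).le
  have hint : ∀ s : ℝ, |s| < r / 2 → Integrable (fun x => Real.exp (s * x)) (ρ : Measure ℝ) := by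
    intro s hs
    refine te_lim (C := m s + (m (2 * s) + 1)) fun R hR => ?_
    rcases le_or_gt 1 R with h1 | h1
    · have h2 := (abs_le.mp (key s R hs hR)).2
      have h3 : (m (2 * s) + 1) / R ≤ m (2 * s) + 1 := div_le_self (by have := hm0 (2 * s); linarith) h1
      linarith
    · have h2 := (abs_le.mp (key s 1 hs one_pos)).2
      have h4 : ∫ x, te s R hR.le x ∂(ρ : Measure ℝ) ≤ ∫ x, te s 1 zero_le_one x ∂(ρ : Measure ℝ) := by
        refine integral_mono ((te s R hR.le).integrable _) ((te s 1 zero_le_one).integrable _) fun x => ?_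
        show te s R hR.le x ≤ te s 1 zero_le_one x
        rw [te_apply, te_apply]
        exact min_le_min le_rfl h1.le
      rw [div_one] at h2
      linarith
  have heq : ∀ s : ℝ, |s| < r / 4 → ∫ x, Real.exp (s * x) ∂(ρ : Measure ℝ) = m s := by
    intro s hs
    have hs' : |s| < r / 2 := by linarith
    have h2s : |2 * s| < r / 2 := by rw [abs_mul, abs_two]; linarith
    have h1 : ∀ R : ℝ, 0 < R → |∫ x, Real.exp (s * x) ∂(ρ : Measure ℝ) - m s| ≤
        ((∫ x, Real.exp (2 * s * x) ∂(ρ : Measure ℝ)) + (m (2 * s) + 1)) / R := by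
      intro R hR
      have h2 := te_near hR (hint s hs') (hint (2 * s) h2s)
      have h3 := key s R hs' hR
      rw [abs_sub_comm] at h2
      have h4 := abs_add_le (∫ x, Real.exp (s * x) ∂(ρ : Measure ℝ) - ∫ x, te s R hR.le x ∂(ρ : Measure ℝ))
        (∫ x, te s R hR.le x ∂(ρ : Measure ℝ) - m s)
      rw [sub_add_sub_cancel] at h4
      rw [add_div]
      linarith
    have h5 : Tendsto (fun R : ℝ => ((∫ x, Real.exp (2 * s * x) ∂(ρ : Measure ℝ)) + (m (2 * s) + 1)) / R) atTop (𝓝 0) :=
      tendsto_const_nhds.div_atTop tendsto_id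
    have h6 : |∫ x, Real.exp (s * x) ∂(ρ : Measure ℝ) - m s| ≤ 0 :=
      ge_of_tendsto h5 ((eventually_gt_atTop 0).mono fun R hR => h1 R hR)
    exact sub_eq_zero.mp (abs_eq_zero.mp (le_antisymm h6 (abs_nonneg _)))
  have hfin' : (ρ : Measure ℝ) = (ν : Measure ℝ) := by
    apply ext_near hr4
    · intro s hs
      exact hint s (by linarith)
    · intro s hs
      exact hν s (by linarith)
    · intro s hs
      rw [heq s hs, hm]
  have hfin : ρ = ν := Subtype.ext hfin'
  rw [hfin] at hT
  exact hT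

end Pool.Agent.Y145.SHL
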